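import Pool.Agent.Q117.EK.Formulas

/-!
Entropy: concavity along segments to constants and the quadratic deficit.
-/

namespace Q117.EK

open MeasureTheory Set Real

/-- The entropy of the measure `f dx` on `[0,1]`. -/
noncomputable def Ent (f : ℝ → ℝ) : ℝ :=
  ∫ x in (0 : ℝ)..1, (-(f x * Real.log (f x)) - (1 - f x) * Real.log (1 - f x))

theorem Ent_eq (f : ℝ → ℝ) : Ent f = ∫ x in (0 : ℝ)..1, binEntropy (f x) := by
  unfold Ent
  congr 1
  funext x
  rw [binEntropy_eq_negMulLog_add_negMulLog_one_sub, negMulLog, negMulLog]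
  ring

theorem ent_int {f : ℝ → ℝ} (hf : f ∈ Dens) :
    IntervalIntegrable (fun x => binEntropy (f x)) volume 0 1 := by
  rw [intervalIntegrable_iff_integrableOn_Ioc_of_le zero_le_one]
  apply Measure.integrableOn_of_bounded (M := Real.log 2)
  · exact measure_Ioc_lt_top.ne
  · exact (binEntropy_continuous.measurable.comp hf.1).aestronglyMeasurable
  · refine Filter.Eventually.of_forall (fun y => ?_)
    rw [Real.norm_eq_abs, abs_of_nonneg (binEntropy_nonneg (hf.2 y).1 (hf.2 y).2)]
    exact binEntropy_le_log_two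

theorem Ent_le {f : ℝ → ℝ} (hf : f ∈ Dens) : Ent f ≤ Real.log 2 := by
  rw [Ent_eq]
  have h := intervalIntegral.integral_mono_on zero_le_one (ent_int hf)
    (intervalIntegrable_const (c := Real.log 2)) (fun x _ => binEntropy_le_log_two)
  simpa using h

/-- mixture with a constant -/
def mix (f : ℝ → ℝ) (t A : ℝ) (x : ℝ) : ℝ := (1 - t) * f x + t * A

theorem mix_mem {f : ℝ → ℝ} (hf : f ∈ Dens) {t A : ℝ} (ht : t ∈ Icc (0 : ℝ) 1)
    (hA : A ∈ Icc (0 : ℝ) 1) : mix f t A ∈ Dens := by
  have hm := hf.1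
  refine ⟨by unfold mix; fun_prop, fun x => ?_⟩
  have h := hf.2 x
  unfold mix
  constructor
  · nlinarith [mul_nonneg (sub_nonneg.2 ht.2) h.1, mul_nonneg ht.1 hA.1]
  · nlinarith [mul_nonneg (sub_nonneg.2 ht.2) (sub_nonneg.2 h.2),
      mul_nonneg ht.1 (sub_nonneg.2 hA.2)]

theorem Ent_mix {f : ℝ → ℝ} (hf : f ∈ Dens) {t A : ℝ} (ht : t ∈ Icc (0 : ℝ) 1)
    (hA : A ∈ Icc (0 : ℝ) 1) :
    (1 - t) * Ent f + t * binEntropy A ≤ Ent (mix f t A) := by
  rw [Ent_eq, Ent_eq]
  have h1 : ∫ x in (0 : ℝ)..1, ((1 - t) * binEntropy (f x) + t * binEntropy A) =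
      (1 - t) * (∫ x in (0 : ℝ)..1, binEntropy (f x)) + t * binEntropy A := by
    rw [intervalIntegral.integral_add ((ent_int hf).const_mul _) intervalIntegrable_const,
      intervalIntegral.integral_const_mul]
    simp
  rw [← h1]
  apply intervalIntegral.integral_mono_on zero_le_one
    (((ent_int hf).const_mul _).add intervalIntegrable_const) (ent_int (mix_mem hf ht hA))
  intro x _
  have hc := strictConcave_binEntropy.concaveOn.2 (hf.2 x) hA (sub_nonneg.2 ht.2) ht.1
    (by ring)
  simpa [mix, smul_eq_mul] using hc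

/-- quadratic upper bound for the binary entropy -/
theorem binEntropy_le {A : ℝ} (hA0 : 0 < A) (hA1 : A < 1) {p : ℝ} (hp : p ∈ Icc (0 : ℝ) 1) :
    binEntropy p ≤ binEntropy A + (Real.log (1 - A) - Real.log A) * (p - A) -
      2 * (p - A) ^ 2 := by
  have hint : interior (Icc (0 : ℝ) 1) = Ioo 0 1 := interior_Icc
  have hd : ∀ x ∈ Ioo (0 : ℝ) 1, HasDerivAt (fun p => binEntropy p + 2 * p ^ 2)
      (Real.log (1 - x) - Real.log x + 4 * x) x := by
    intro x hx
    have h1 := hasDerivAt_binEntropy hx.1.ne' hx.2.ne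
    have h2 : HasDerivAt (fun p : ℝ => 2 * p ^ 2) (4 * x) x := by
      have := (hasDerivAt_pow 2 x).const_mul 2
      refine this.congr_deriv ?_
      norm_num; ring
    exact h1.add h2
  have hconc : ConcaveOn ℝ (Icc (0 : ℝ) 1) (fun p => binEntropy p + 2 * p ^ 2) := by
    apply concaveOn_of_hasDerivWithinAt2_nonpos (convex_Icc 0 1)
      (f' := fun x => Real.log (1 - x) - Real.log x + 4 * x)
      (f'' := fun x => -(1 - x)⁻¹ - x⁻¹ + 4)
    · exact (binEntropy_continuous.add (by fun_prop)).continuousOn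
    · rw [hint]
      intro x hx
      exact (hd x hx).hasDerivWithinAt
    · rw [hint]
      intro x hx
      apply HasDerivAt.hasDerivWithinAt
      have h1 : HasDerivAt (fun x : ℝ => Real.log (1 - x)) (-(1 - x)⁻¹) x := by
        have h3 : HasDerivAt (fun x : ℝ => 1 - x) (-1) x := (hasDerivAt_id x).const_sub 1
        have h4 := h3.log (by linarith [hx.2])
        refine h4.congr_deriv ?_
        rw [neg_div, one_div]
      have h2 : HasDerivAt Real.log x⁻¹ x := Real.hasDerivAt_log hx.1.ne'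
      have h5 : HasDerivAt (fun x : ℝ => 4 * x) 4 x := by
        simpa using (hasDerivAt_id x).const_mul 4
      exact (h1.sub h2).add h5
    · rw [hint]
      intro x hx
      have h1 : 0 < x := hx.1
      have h2 : 0 < 1 - x := by linarith [hx.2]
      have h3 : (1 - x)⁻¹ + x⁻¹ = 1 / (x * (1 - x)) := by
        field_simp
        ring
      have h4 : 4 ≤ 1 / (x * (1 - x)) := by
        rw [le_div_iff₀ (by positivity)]
        nlinarith [sq_nonneg (2 * x - 1)]
      linarith
  have hAm : A ∈ Icc (0 : ℝ) 1 := ⟨hA0.le, hA1.le⟩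
  have hdA := hd A ⟨hA0, hA1⟩
  rcases lt_trichotomy p A with h | h | h
  · have h1 := hconc.le_slope_of_hasDerivAt hp hAm h hdA
    rw [slope_def_field, le_div_iff₀ (by linarith)] at h1
    nlinarith
  · rw [h]; simp
  · have h1 := hconc.slope_le_of_hasDerivAt hAm hp h hdA
    rw [slope_def_field, div_le_iff₀ (by linarith)] at h1
    nlinarith

theorem sq_int {f : ℝ → ℝ} (hf : f ∈ Dens) (A : ℝ) :
    IntervalIntegrable (fun x => (f x - A) ^ 2) volume 0 1 := by
  rw [intervalIntegrable_iff_integrableOn_Ioc_of_le zero_le_one]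
  refine Measure.integrableOn_of_bounded (M := (1 + |A|) ^ 2) ?_ ?_ ?_
  · exact measure_Ioc_lt_top.ne
  · exact ((hf.1.sub_const A).pow_const 2).aestronglyMeasurable
  · refine Filter.Eventually.of_forall (fun y => ?_)
    rw [Real.norm_eq_abs, abs_pow]
    apply pow_le_pow_left₀ (abs_nonneg _)
    have h := hf.2 y
    have := neg_abs_le A
    have := le_abs_self A
    rw [abs_le]; constructor <;> linarith

/-- entropy deficit -/
theorem Ent_deficit {f : ℝ → ℝ} (hf : f ∈ Dens) {A : ℝ} (hA0 : 0 < A) (hA1 : A < 1)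
    (hfA : ∫ x in (0 : ℝ)..1, f x = A) :
    Ent f ≤ binEntropy A - 2 * (∫ x in (0 : ℝ)..1, (f x - A) ^ 2) := by
  rw [Ent_eq]
  have hi := intInt hf 0 1
  have h1 : ∫ x in (0 : ℝ)..1, (binEntropy A + (Real.log (1 - A) - Real.log A) * (f x - A) -
      2 * (f x - A) ^ 2) = binEntropy A - 2 * (∫ x in (0 : ℝ)..1, (f x - A) ^ 2) := by
    rw [intervalIntegral.integral_sub (intervalIntegrable_const.add
      ((hi.sub intervalIntegrable_const).const_mul _)) ((sq_int hf A).const_mul 2),
      intervalIntegral.integral_add intervalIntegrable_const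
      ((hi.sub intervalIntegrable_const).const_mul _),
      intervalIntegral.integral_const_mul, intervalIntegral.integral_const_mul,
      intervalIntegral.integral_sub hi intervalIntegrable_const, hfA]
    simp
  rw [← h1]
  apply intervalIntegral.integral_mono_on zero_le_one (ent_int hf)
    ((intervalIntegrable_const.add ((hi.sub intervalIntegrable_const).const_mul _)).sub
      ((sq_int hf A).const_mul 2))
  intro x _
  exact binEntropy_le hA0 hA1 (hf.2 x)

/-- the square integral dominates the square of the integral of the absolute value -/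
theorem abs_sq_le {f : ℝ → ℝ} (hf : f ∈ Dens) (A : ℝ) :
    (∫ x in (0 : ℝ)..1, |f x - A|) ^ 2 ≤ ∫ x in (0 : ℝ)..1, (f x - A) ^ 2 := by
  obtain ⟨τ, hτ⟩ : ∃ τ, τ = ∫ x in (0 : ℝ)..1, |f x - A| := ⟨_, rfl⟩
  have hi : IntervalIntegrable (fun x => |f x - A|) volume 0 1 :=
    ((intInt hf 0 1).sub intervalIntegrable_const).abs
  have h1 : ∫ x in (0 : ℝ)..1, (2 * τ * |f x - A| - τ ^ 2) = τ ^ 2 := by
    rw [intervalIntegral.integral_sub (hi.const_mul _) intervalIntegrable_const,
      intervalIntegral.integral_const_mul, ← hτ]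
    simp; ring
  rw [← hτ, ← h1]
  apply intervalIntegral.integral_mono_on zero_le_one
    ((hi.const_mul _).sub intervalIntegrable_const) (sq_int hf A)
  intro x _
  have h2 : (f x - A) ^ 2 = |f x - A| ^ 2 := (sq_abs _).symm
  rw [h2]
  nlinarith [sq_nonneg (|f x - A| - τ)]

end Q117.EK
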