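import Pool.Agent.Q117.EK.Entropy

/-!
Mixtures with constants, the entropy deficit in terms of the density of `011`, and an explicit
three parameter family of measures.
-/

namespace Q117.EK

open MeasureTheory Set Real

theorem U_mix {f : ℝ → ℝ} (hf : f ∈ Dens) (t A x : ℝ) :
    U (mix f t A) x = (1 - t) * U f x + t * A * (1 - x) := by
  unfold U mix
  rw [intervalIntegral.integral_add ((intInt hf x 1).const_mul _) intervalIntegrable_const,
    intervalIntegral.integral_const_mul]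
  simp
  ring

theorem int_one_sub_sq : ∫ x in (0 : ℝ)..1, (1 - x) ^ 2 = 1 / 3 := by
  have h : ∀ x : ℝ, HasDerivAt (fun x : ℝ => -(1 - x) ^ 3 / 3) ((1 - x) ^ 2) x := by
    intro x
    have h1 : HasDerivAt (fun x : ℝ => 1 - x) (-1) x := (hasDerivAt_id x).const_sub 1
    have h2 := ((h1.pow 3).neg).div_const 3
    refine h2.congr_deriv ?_
    norm_num
  rw [intervalIntegral.integral_eq_sub_of_hasDerivAt (fun x _ => h x)
    (by apply Continuous.intervalIntegrable; fun_prop)]
  norm_num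

theorem int_one_sub : ∫ x in (0 : ℝ)..1, (1 - x) = 1 / 2 := by
  rw [intervalIntegral.integral_sub intervalIntegrable_const
    ((by fun_prop : Continuous (fun x : ℝ => x)).intervalIntegrable _ _)]
  simp
  norm_num

/-- the three integrals for a mixture -/
theorem mix_vals {f : ℝ → ℝ} (hf : f ∈ Dens) {A : ℝ} (h0 : U f 0 = A)
    (h1 : ∫ x in (0 : ℝ)..1, U f x = A / 2) (t : ℝ) :
    U (mix f t A) 0 = A ∧ (∫ x in (0 : ℝ)..1, U (mix f t A) x = A / 2) ∧
    ∫ x in (0 : ℝ)..1, U (mix f t A) x ^ 2 = (1 - t) ^ 2 * (∫ x in (0 : ℝ)..1, U f x ^ 2) +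
      2 * t * (1 - t) * A * (∫ x in (0 : ℝ)..1, U f x * (1 - x)) + t ^ 2 * A ^ 2 / 3 := by
  have hc := U_continuous hf
  have hi1 : IntervalIntegrable (U f) volume 0 1 := hc.intervalIntegrable _ _
  have hi2 : IntervalIntegrable (fun x : ℝ => 1 - x) volume 0 1 :=
    (by fun_prop : Continuous (fun x : ℝ => 1 - x)).intervalIntegrable _ _
  have hi3 : IntervalIntegrable (fun x => U f x ^ 2) volume 0 1 := (hc.pow 2).intervalIntegrable _ _
  have hi4 : IntervalIntegrable (fun x => U f x * (1 - x)) volume 0 1 :=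
    (by fun_prop : Continuous (fun x => U f x * (1 - x))).intervalIntegrable _ _
  have hi5 : IntervalIntegrable (fun x : ℝ => (1 - x) ^ 2) volume 0 1 :=
    (by fun_prop : Continuous (fun x : ℝ => (1 - x) ^ 2)).intervalIntegrable _ _
  refine ⟨?_, ?_, ?_⟩
  · rw [U_mix hf, h0]; ring
  · simp_rw [U_mix hf]
    rw [intervalIntegral.integral_add (hi1.const_mul _) (hi2.const_mul _),
      intervalIntegral.integral_const_mul, intervalIntegral.integral_const_mul, h1, int_one_sub]
    ring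
  · have h3 : ∀ x, U (mix f t A) x ^ 2 = (1 - t) ^ 2 * U f x ^ 2 +
        2 * t * (1 - t) * A * (U f x * (1 - x)) + (t ^ 2 * A ^ 2) * (1 - x) ^ 2 := by
      intro x
      rw [U_mix hf]; ring
    simp_rw [h3]
    rw [intervalIntegral.integral_add ((hi3.const_mul _).add (hi4.const_mul _)) (hi5.const_mul _),
      intervalIntegral.integral_add (hi3.const_mul _) (hi4.const_mul _),
      intervalIntegral.integral_const_mul, intervalIntegral.integral_const_mul,
      intervalIntegral.integral_const_mul, int_one_sub_sq]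
    ring

theorem D_bounds {f : ℝ → ℝ} (hf : f ∈ Dens) :
    (0 ≤ ∫ x in (0 : ℝ)..1, U f x ^ 2) ∧ (∫ x in (0 : ℝ)..1, U f x ^ 2) ≤ 1 ∧
    (0 ≤ ∫ x in (0 : ℝ)..1, U f x * (1 - x)) ∧ (∫ x in (0 : ℝ)..1, U f x * (1 - x)) ≤ 1 := by
  have hc := U_continuous hf
  have hi3 : IntervalIntegrable (fun x => U f x ^ 2) volume 0 1 := (hc.pow 2).intervalIntegrable _ _
  have hi4 : IntervalIntegrable (fun x => U f x * (1 - x)) volume 0 1 :=
    (by fun_prop : Continuous (fun x => U f x * (1 - x))).intervalIntegrable _ _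
  have hb : ∀ x ∈ Icc (0 : ℝ) 1, 0 ≤ U f x ∧ U f x ≤ 1 := by
    intro x hx
    have := U_bounds hf hx.2
    exact ⟨this.1, by linarith [this.2, hx.1]⟩
  refine ⟨?_, ?_, ?_, ?_⟩
  · exact intervalIntegral.integral_nonneg zero_le_one (fun x _ => sq_nonneg _)
  · have := intervalIntegral.integral_mono_on zero_le_one hi3
      (intervalIntegrable_const (c := (1 : ℝ))) (fun x hx => by
        have := hb x hx
        nlinarith)
    simpa using this
  · exact intervalIntegral.integral_nonneg zero_le_one (fun x hx =>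
      mul_nonneg (hb x hx).1 (by linarith [hx.2]))
  · have := intervalIntegral.integral_mono_on zero_le_one hi4
      (intervalIntegrable_const (c := (1 : ℝ))) (fun x hx => by
        have := hb x hx
        nlinarith [hx.1, hx.2])
    simpa using this

/-- deviation of the second moment of the tail integral from that of a constant -/
theorem D_dev {f : ℝ → ℝ} (hf : f ∈ Dens) {A : ℝ} (hA : A ∈ Icc (0 : ℝ) 1) :
    |(∫ x in (0 : ℝ)..1, U f x ^ 2) - A ^ 2 / 3| ≤ 2 * ∫ x in (0 : ℝ)..1, |f x - A| := by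
  have hc := U_continuous hf
  obtain ⟨τ, hτ⟩ : ∃ τ, τ = ∫ x in (0 : ℝ)..1, |f x - A| := ⟨_, rfl⟩
  have hi : ∀ a b, IntervalIntegrable (fun x => |f x - A|) volume a b := fun a b =>
    ((intInt hf a b).sub intervalIntegrable_const).abs
  have hi5 : IntervalIntegrable (fun x : ℝ => (1 - x) ^ 2) volume 0 1 :=
    (by fun_prop : Continuous (fun x : ℝ => (1 - x) ^ 2)).intervalIntegrable _ _
  have hi3 : IntervalIntegrable (fun x => U f x ^ 2) volume 0 1 := (hc.pow 2).intervalIntegrable _ _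
  have h1 : ∀ x ∈ Icc (0 : ℝ) 1, |U f x - A * (1 - x)| ≤ τ := by
    intro x hx
    have e1 : U f x - A * (1 - x) = ∫ t in x..1, (f t - A) := by
      rw [intervalIntegral.integral_sub (intInt hf x 1) intervalIntegrable_const]
      simp [U]
      ring
    rw [e1]
    refine (intervalIntegral.abs_integral_le_integral_abs hx.2).trans ?_
    have e2 := intervalIntegral.integral_add_adjacent_intervals (hi 0 x) (hi x 1)
    have e3 : 0 ≤ ∫ t in (0 : ℝ)..x, |f t - A| :=
      intervalIntegral.integral_nonneg hx.1 (fun _ _ => abs_nonneg _)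
    rw [hτ]
    linarith
  have h2 : (∫ x in (0 : ℝ)..1, U f x ^ 2) - A ^ 2 / 3 =
      ∫ x in (0 : ℝ)..1, (U f x ^ 2 - A ^ 2 * (1 - x) ^ 2) := by
    rw [intervalIntegral.integral_sub hi3 (hi5.const_mul _), intervalIntegral.integral_const_mul,
      int_one_sub_sq]
    ring
  rw [h2, ← hτ]
  have h3 : ∀ x ∈ uIoc (0 : ℝ) 1, ‖U f x ^ 2 - A ^ 2 * (1 - x) ^ 2‖ ≤ 2 * τ := by
    intro x hx
    rw [uIoc_of_le zero_le_one] at hx
    have hx' : x ∈ Icc (0 : ℝ) 1 := ⟨hx.1.le, hx.2⟩
    have e1 : U f x ^ 2 - A ^ 2 * (1 - x) ^ 2 = (U f x - A * (1 - x)) * (U f x + A * (1 - x)) := by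
      ring
    rw [e1, Real.norm_eq_abs, abs_mul]
    have e2 := h1 x hx'
    have e3 := U_bounds hf hx.2
    have e4 : 0 ≤ A * (1 - x) := mul_nonneg hA.1 (by linarith [hx.2])
    have e5 : A * (1 - x) ≤ 1 := by nlinarith [hA.1, hA.2, hx.1, hx.2]
    have e6 : |U f x + A * (1 - x)| ≤ 2 := by
      rw [abs_of_nonneg (by linarith [e3.1])]
      linarith [e3.2, hx.1]
    have e7 : 0 ≤ τ := (abs_nonneg _).trans e2
    calc _ ≤ τ * 2 := mul_le_mul e2 e6 (abs_nonneg _) e7
      _ = 2 * τ := mul_comm _ _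
  have h4 := intervalIntegral.norm_integral_le_of_norm_le_const h3
  simpa using h4

theorem poly_int (n : ℕ) (c : ℕ → ℝ) :
    ∫ x in (0 : ℝ)..1, ∑ i ∈ Finset.range n, c i * x ^ i =
      ∑ i ∈ Finset.range n, c i / (i + 1) := by
  rw [intervalIntegral.integral_finsetSum]
  · refine Finset.sum_congr rfl (fun i _ => ?_)
    rw [intervalIntegral.integral_const_mul, integral_pow]
    simp
    ring
  · intro i _
    exact (by fun_prop : Continuous (fun x : ℝ => c i * x ^ i)).intervalIntegrable _ _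

/-- the family -/
noncomputable def fam (A β s : ℝ) (y : ℝ) : ℝ :=
  A + β * (2 * (max 0 (min 1 y)) - 1) +
    s * (6 * (max 0 (min 1 y)) ^ 2 - 6 * (max 0 (min 1 y)) + 1)

theorem fam_mem {A β s : ℝ} (hA1 : 1 / 2 ≤ A) (hA2 : A ≤ 3 / 5) (hβ : |β| ≤ 1 / 100)
    (hs : |s| ≤ 1 / 5) : fam A β s ∈ Dens := by
  refine ⟨?_, fun x => ?_⟩
  · apply Continuous.measurable
    unfold fam
    fun_prop
  · unfold fam
    obtain ⟨m, hm⟩ : ∃ m, m = max 0 (min 1 x) := ⟨_, rfl⟩
    rw [← hm]
    have hm0 : 0 ≤ m := by rw [hm]; exact le_max_left _ _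
    have hm1 : m ≤ 1 := by rw [hm]; exact max_le zero_le_one (min_le_left _ _)
    have h1 : |β * (2 * m - 1)| ≤ 1 / 100 * 1 := by
      rw [abs_mul]
      exact mul_le_mul hβ (by rw [abs_le]; constructor <;> linarith) (abs_nonneg _) (by norm_num)
    have h2 : |s * (6 * m ^ 2 - 6 * m + 1)| ≤ 1 / 5 * 1 := by
      rw [abs_mul]
      exact mul_le_mul hs (by rw [abs_le]; constructor <;> nlinarith [sq_nonneg (2 * m - 1)])
        (abs_nonneg _) (by norm_num)
    rw [abs_le] at h1 h2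
    constructor <;> linarith [h1.1, h1.2, h2.1, h2.2]

theorem U_fam (A β s : ℝ) {x : ℝ} (hx : x ∈ Icc (0 : ℝ) 1) :
    U (fam A β s) x = A + (β - A - s) * x + (3 * s - β) * x ^ 2 + (-2 * s) * x ^ 3 := by
  unfold U
  have h1 : ∫ t in x..1, fam A β s t =
      ∫ t in x..1, (A + β * (2 * t - 1) + s * (6 * t ^ 2 - 6 * t + 1)) := by
    apply intervalIntegral.integral_congr
    intro t ht
    rw [uIcc_of_le hx.2] at ht
    have e1 : max 0 (min 1 t) = t := by
      rw [min_eq_right ht.2, max_eq_right (hx.1.trans ht.1)]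
    show fam A β s t = _
    unfold fam
    rw [e1]
  rw [h1]
  have h : ∀ t : ℝ, HasDerivAt
      (fun t : ℝ => A * t + β * (t ^ 2 - t) + s * (2 * t ^ 3 - 3 * t ^ 2 + t))
      (A + β * (2 * t - 1) + s * (6 * t ^ 2 - 6 * t + 1)) t := by
    intro t
    have d1 := (hasDerivAt_id t).const_mul A
    have d2 := (((hasDerivAt_pow 2 t).sub (hasDerivAt_id t)).const_mul β)
    have d3 := ((((hasDerivAt_pow 3 t).const_mul 2).sub ((hasDerivAt_pow 2 t).const_mul 3)).add
      (hasDerivAt_id t)).const_mul s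
    refine ((d1.add d2).add d3).congr_deriv ?_
    push_cast
    ring
  rw [intervalIntegral.integral_eq_sub_of_hasDerivAt (fun t _ => h t)
    (by apply Continuous.intervalIntegrable; fun_prop)]
  ring

theorem fam_vals {A β s : ℝ} (hA1 : 1 / 2 ≤ A) (hA2 : A ≤ 3 / 5) (hβ : |β| ≤ 1 / 100)
    (hs : |s| ≤ 1 / 5) :
    rho (fam A β s) [false, true] = A + β / 3 - A ^ 2 ∧
    rho (fam A β s) [true, false] = A - β / 3 - A ^ 2 ∧
    rho (fam A β s) [false, true, true] =
      A ^ 2 - A ^ 3 + β ^ 2 / 10 + A * β / 2 + (s ^ 2 / 70 - A * s / 10) := by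
  have hf := fam_mem hA1 hA2 hβ hs
  have h0 : U (fam A β s) 0 = A := by
    rw [U_fam A β s ⟨le_rfl, zero_le_one⟩]; ring
  have h1 : ∫ x in (0 : ℝ)..1, U (fam A β s) x = A / 2 + β / 6 := by
    have e1 : ∫ x in (0 : ℝ)..1, U (fam A β s) x = ∫ x in (0 : ℝ)..1,
        ∑ i ∈ Finset.range 4, ((fun i : ℕ => [A, β - A - s, 3 * s - β, -2 * s].getD i 0) i) *
          x ^ i := by
      apply intervalIntegral.integral_congr
      intro x hx
      rw [uIcc_of_le zero_le_one] at hx
      show U (fam A β s) x = _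
      rw [U_fam A β s hx]
      simp [Finset.sum_range_succ]
    rw [e1, poly_int]
    simp [Finset.sum_range_succ]
    ring
  have h2 : ∫ x in (0 : ℝ)..1, U (fam A β s) x ^ 2 =
      A ^ 2 / 3 + β ^ 2 / 30 + s ^ 2 / 210 + A * β / 6 - A * s / 30 := by
    have e1 : ∫ x in (0 : ℝ)..1, U (fam A β s) x ^ 2 = ∫ x in (0 : ℝ)..1,
        ∑ i ∈ Finset.range 7, ((fun i : ℕ => [A ^ 2, 2 * A * (β - A - s),
          (β - A - s) ^ 2 + 2 * A * (3 * s - β),
          2 * A * (-2 * s) + 2 * (β - A - s) * (3 * s - β),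
          (3 * s - β) ^ 2 + 2 * (β - A - s) * (-2 * s),
          2 * (3 * s - β) * (-2 * s), (-2 * s) ^ 2].getD i 0) i) * x ^ i := by
      apply intervalIntegral.integral_congr
      intro x hx
      rw [uIcc_of_le zero_le_one] at hx
      show U (fam A β s) x ^ 2 = _
      rw [U_fam A β s hx]
      simp [Finset.sum_range_succ]
      ring
    rw [e1, poly_int]
    simp [Finset.sum_range_succ]
    ring
  refine ⟨?_, ?_, ?_⟩
  · rw [rho_01 hf, h0, h1]; ring
  · rw [rho_10 hf, h0, h1]; ring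
  · rw [rho_011 hf, h0, h2]; ring

end Q117.EK
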