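import Pool.Agent.Q117.EK.Simplex

/-!
The densities of the words `01`, `10`, `011` in terms of the tail integral of `f`.
-/

namespace Q117.EK

open MeasureTheory Set

/-- tail integral -/
noncomputable def U (f : ℝ → ℝ) (x : ℝ) : ℝ := ∫ t in x..1, f t

theorem locInt {f : ℝ → ℝ} (hf : f ∈ Dens) : LocallyIntegrable f volume := by
  intro x
  refine ⟨Ioo (x - 1) (x + 1), Ioo_mem_nhds (by linarith) (by linarith), ?_⟩
  apply Measure.integrableOn_of_bounded (M := 1)
  · exact measure_Ioo_lt_top.ne
  · exact hf.1.aestronglyMeasurable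
  · refine Filter.Eventually.of_forall (fun y => ?_)
    rw [Real.norm_eq_abs, abs_of_nonneg (hf.2 y).1]
    exact (hf.2 y).2

theorem intInt {f : ℝ → ℝ} (hf : f ∈ Dens) (a b : ℝ) : IntervalIntegrable f volume a b :=
  intervalIntegrable_iff.mpr
    (((locInt hf).integrableOn_isCompact isCompact_uIcc).mono_set uIoc_subset_uIcc)

theorem U_eq {f : ℝ → ℝ} : U f = fun x => -∫ t in (1 : ℝ)..x, f t := by
  funext x
  exact intervalIntegral.integral_symm _ _

theorem U_one (f : ℝ → ℝ) : U f 1 = 0 := intervalIntegral.integral_same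

theorem U_ae {f : ℝ → ℝ} (hf : f ∈ Dens) : ∀ᵐ x, HasDerivAt (U f) (-f x) x := by
  filter_upwards [_root_.LocallyIntegrable.ae_hasDerivAt_integral (locInt hf)] with x hx
  rw [U_eq]
  exact (hx 1).neg

theorem U_continuous {f : ℝ → ℝ} (hf : f ∈ Dens) : Continuous (U f) := by
  rw [U_eq]
  exact (intervalIntegral.continuous_primitive (fun a b => intInt hf a b) 1).neg

theorem U_ac {f : ℝ → ℝ} (hf : f ∈ Dens) {t : ℝ} (ht : t ≤ 1) :
    AbsolutelyContinuousOnInterval (U f) t 1 := by
  rw [U_eq]
  have := (intInt hf t 1).absolutelyContinuousOnInterval_intervalIntegral (c := 1)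
    (by rw [uIcc_of_le ht]; exact ⟨ht, le_rfl⟩)
  exact this.neg

theorem U_bounds {f : ℝ → ℝ} (hf : f ∈ Dens) {x : ℝ} (hx : x ≤ 1) :
    0 ≤ U f x ∧ U f x ≤ 1 - x := by
  constructor
  · exact intervalIntegral.integral_nonneg hx (fun t _ => (hf.2 t).1)
  · have h := intervalIntegral.integral_mono_on hx (intInt hf x 1)
      (intervalIntegrable_const (c := (1 : ℝ))) (fun t _ => (hf.2 t).2)
    simpa [U] using h

theorem L1 {f : ℝ → ℝ} (hf : f ∈ Dens) {t : ℝ} (ht : t ≤ 1) :
    ∫ x in t..1, f x * U f x = U f t ^ 2 / 2 := by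
  have h1 := AbsolutelyContinuousOnInterval.integral_deriv_mul_eq_sub (U_ac hf ht) (U_ac hf ht)
  have h2 : ∫ x in t..1, (deriv (U f) x * U f x + U f x * deriv (U f) x) =
      ∫ x in t..1, (-2) * (f x * U f x) := by
    apply intervalIntegral.integral_congr_ae
    filter_upwards [U_ae hf] with x hx _
    rw [hx.deriv]; ring
  rw [h2, intervalIntegral.integral_const_mul, U_one] at h1
  linarith

theorem L2 {f : ℝ → ℝ} (hf : f ∈ Dens) :
    ∫ x in (0 : ℝ)..1, f x * U f x ^ 2 = U f 0 ^ 3 / 3 := by
  have hac := U_ac hf zero_le_one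
  have h1 := AbsolutelyContinuousOnInterval.integral_deriv_mul_eq_sub (hac.fun_mul hac) hac
  have h2 : ∫ x in (0 : ℝ)..1, (deriv (fun x => U f x * U f x) x * U f x +
      U f x * U f x * deriv (U f) x) = ∫ x in (0 : ℝ)..1, (-3) * (f x * U f x ^ 2) := by
    apply intervalIntegral.integral_congr_ae
    filter_upwards [U_ae hf] with x hx _
    have h3 : deriv (fun x => U f x * U f x) x = -f x * U f x + U f x * (-f x) :=
      (hx.mul hx).deriv
    rw [h3, hx.deriv]; ring
  rw [h2, intervalIntegral.integral_const_mul, U_one] at h1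
  nlinarith [h1]

theorem L3 {f : ℝ → ℝ} (hf : f ∈ Dens) :
    ∫ x in (0 : ℝ)..1, f x * (1 - x) = U f 0 - ∫ x in (0 : ℝ)..1, U f x := by
  have hac := U_ac hf zero_le_one
  have hl : AbsolutelyContinuousOnInterval (fun x : ℝ => 1 - x) 0 1 := by
    have hL : LipschitzOnWith 1 (fun x : ℝ => 1 - x) (uIcc 0 1) := by
      apply LipschitzOnWith.of_dist_le_mul
      intro x _ y _
      rw [Real.dist_eq, Real.dist_eq, show (1 - x) - (1 - y) = -(x - y) by ring, abs_neg]
      simp
    exact hL.absolutelyContinuousOnInterval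
  have h1 := AbsolutelyContinuousOnInterval.integral_deriv_mul_eq_sub hac hl
  have h2 : ∫ x in (0 : ℝ)..1, (deriv (U f) x * (1 - x) +
      U f x * deriv (fun x : ℝ => 1 - x) x) =
      ∫ x in (0 : ℝ)..1, (-(f x * (1 - x)) - U f x) := by
    apply intervalIntegral.integral_congr_ae
    filter_upwards [U_ae hf] with x hx _
    have h3 : deriv (fun x : ℝ => 1 - x) x = -1 := by simp
    rw [h3, hx.deriv]; ring
  have hi1 : IntervalIntegrable (fun x => f x * (1 - x)) volume 0 1 :=
    (intInt hf 0 1).mul_continuousOn (by fun_prop)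
  have hi2 : IntervalIntegrable (U f) volume 0 1 := (U_continuous hf).intervalIntegrable _ _
  have hi3 : IntervalIntegrable (fun x => -(f x * (1 - x))) volume 0 1 := hi1.neg
  rw [h2, intervalIntegral.integral_sub hi3 hi2, intervalIntegral.integral_neg, U_one] at h1
  linarith

/-- The density of the word `w` in the measure `f dx` on `[0,1]`. -/
noncomputable def rho (f : ℝ → ℝ) (w : List Bool) : ℝ :=
  (w.length.factorial : ℝ) *
    ∫ x in {x : Fin w.length → ℝ | (∀ i, x i ∈ Icc 0 1) ∧ StrictMono x},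
      ∏ i, g f (w.get i) (x i)

theorem rho_01 {f : ℝ → ℝ} (hf : f ∈ Dens) :
    rho f [false, true] = 2 * (∫ x in (0 : ℝ)..1, U f x) - U f 0 ^ 2 := by
  have h0 : rho f [false, true] = ((2 : ℕ).factorial : ℝ) *
      ∫ a in Icc (0 : ℝ) 1, g f ([false, true].get 0) a * ∫ b in Ioc a 1, g f ([false, true].get 1) b :=
    congrArg (fun t => ((2 : ℕ).factorial : ℝ) * t)
      (simplex_two hf (fun i : Fin 2 => [false, true].get i))
  rw [h0]
  have h1 : ∫ a in Icc (0 : ℝ) 1, g f ([false, true].get 0) a *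
      ∫ b in Ioc a 1, g f ([false, true].get 1) b =
      ∫ a in (0 : ℝ)..1, (U f a - f a * U f a) := by
    rw [intervalIntegral.integral_of_le zero_le_one, ← integral_Icc_eq_integral_Ioc]
    refine setIntegral_congr_fun measurableSet_Icc (fun a ha => ?_)
    show (1 - f a) * (∫ b in Ioc a 1, f b) = _
    rw [← intervalIntegral.integral_of_le ha.2]
    show (1 - f a) * U f a = _
    ring
  have hi1 : IntervalIntegrable (U f) volume 0 1 := (U_continuous hf).intervalIntegrable _ _
  have hi2 : IntervalIntegrable (fun x => f x * U f x) volume 0 1 :=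
    (intInt hf 0 1).mul_continuousOn (U_continuous hf).continuousOn
  rw [h1, intervalIntegral.integral_sub hi1 hi2, L1 hf zero_le_one]
  simp only [Nat.factorial, Nat.succ_eq_add_one]
  push_cast
  ring

theorem tail_compl {f : ℝ → ℝ} (hf : f ∈ Dens) (a : ℝ) :
    ∫ x in a..1, (1 - f x) = (1 - a) - U f a := by
  rw [intervalIntegral.integral_sub intervalIntegrable_const (intInt hf a 1)]
  simp [U]

theorem rho_10 {f : ℝ → ℝ} (hf : f ∈ Dens) :
    rho f [true, false] = 2 * U f 0 - 2 * (∫ x in (0 : ℝ)..1, U f x) - U f 0 ^ 2 := by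
  have h0 : rho f [true, false] = ((2 : ℕ).factorial : ℝ) *
      ∫ a in Icc (0 : ℝ) 1, g f ([true, false].get 0) a * ∫ b in Ioc a 1, g f ([true, false].get 1) b :=
    congrArg (fun t => ((2 : ℕ).factorial : ℝ) * t)
      (simplex_two hf (fun i : Fin 2 => [true, false].get i))
  rw [h0]
  have h1 : ∫ a in Icc (0 : ℝ) 1, g f ([true, false].get 0) a *
      ∫ b in Ioc a 1, g f ([true, false].get 1) b =
      ∫ a in (0 : ℝ)..1, (f a * (1 - a) - f a * U f a) := by
    rw [intervalIntegral.integral_of_le zero_le_one, ← integral_Icc_eq_integral_Ioc]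
    refine setIntegral_congr_fun measurableSet_Icc (fun a ha => ?_)
    show f a * (∫ b in Ioc a 1, (1 - f b)) = _
    rw [← intervalIntegral.integral_of_le ha.2, tail_compl hf]
    ring
  have hi1 : IntervalIntegrable (fun x => f x * (1 - x)) volume 0 1 :=
    (intInt hf 0 1).mul_continuousOn (by fun_prop)
  have hi2 : IntervalIntegrable (fun x => f x * U f x) volume 0 1 :=
    (intInt hf 0 1).mul_continuousOn (U_continuous hf).continuousOn
  rw [h1, intervalIntegral.integral_sub hi1 hi2, L1 hf zero_le_one, L3 hf]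
  simp only [Nat.factorial, Nat.succ_eq_add_one]
  push_cast
  ring

theorem rho_011 {f : ℝ → ℝ} (hf : f ∈ Dens) :
    rho f [false, true, true] = 3 * (∫ x in (0 : ℝ)..1, U f x ^ 2) - U f 0 ^ 3 := by
  have h0 : rho f [false, true, true] = ((3 : ℕ).factorial : ℝ) *
      ∫ a in Icc (0 : ℝ) 1, g f ([false, true, true].get 0) a *
        ∫ b in Ioc a 1, g f ([false, true, true].get 1) b * ∫ c in Ioc b 1, g f ([false, true, true].get 2) c :=
    congrArg (fun t => ((3 : ℕ).factorial : ℝ) * t)
      (simplex_three hf (fun i : Fin 3 => [false, true, true].get i))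
  rw [h0]
  have h1 : ∫ a in Icc (0 : ℝ) 1, g f ([false, true, true].get 0) a *
      ∫ b in Ioc a 1, g f ([false, true, true].get 1) b *
        ∫ c in Ioc b 1, g f ([false, true, true].get 2) c =
      ∫ a in (0 : ℝ)..1, (1 / 2) * (U f a ^ 2 - f a * U f a ^ 2) := by
    rw [intervalIntegral.integral_of_le zero_le_one, ← integral_Icc_eq_integral_Ioc]
    refine setIntegral_congr_fun measurableSet_Icc (fun a ha => ?_)
    show (1 - f a) * (∫ b in Ioc a 1, f b * ∫ c in Ioc b 1, f c) = _
    have h2 : ∫ b in Ioc a 1, f b * ∫ c in Ioc b 1, f c = ∫ b in Ioc a 1, f b * U f b := by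
      refine setIntegral_congr_fun measurableSet_Ioc (fun b hb => ?_)
      show f b * (∫ c in Ioc b 1, f c) = f b * U f b
      rw [← intervalIntegral.integral_of_le hb.2]
      rfl
    rw [h2, ← intervalIntegral.integral_of_le ha.2, L1 hf ha.2]
    ring
  have hi1 : IntervalIntegrable (fun x => U f x ^ 2) volume 0 1 :=
    ((U_continuous hf).pow 2).intervalIntegrable _ _
  have hi2 : IntervalIntegrable (fun x => f x * U f x ^ 2) volume 0 1 :=
    (intInt hf 0 1).mul_continuousOn ((U_continuous hf).pow 2).continuousOn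
  rw [h1, intervalIntegral.integral_const_mul, intervalIntegral.integral_sub hi1 hi2, L2 hf]
  simp only [Nat.factorial, Nat.succ_eq_add_one]
  push_cast
  ring

end Q117.EK
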