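import Mathlib

/-!
Integrals over ordered simplices as iterated integrals.
-/

namespace Q117.EK

open MeasureTheory Set

/-- `f` for the letter `1` and `1 - f` for the letter `0` -/
def g (f : ℝ → ℝ) (b : Bool) (x : ℝ) : ℝ := if b then f x else 1 - f x

/-- measurable functions with values in `[0,1]` -/
def Dens : Set (ℝ → ℝ) := {f | Measurable f ∧ ∀ x, 0 ≤ f x ∧ f x ≤ 1}

theorem g_meas {f : ℝ → ℝ} (hf : f ∈ Dens) (b : Bool) : Measurable (g f b) := by
  have h := hf.1
  cases b
  · show Measurable (fun x => if (false : Bool) then f x else 1 - f x)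
    simp only [Bool.false_eq_true, if_false]
    fun_prop
  · show Measurable (fun x => if (true : Bool) then f x else 1 - f x)
    simp only [if_true]
    exact h

theorem g_nonneg {f : ℝ → ℝ} (hf : f ∈ Dens) (b : Bool) (x : ℝ) : 0 ≤ g f b x := by
  have h := hf.2 x
  cases b <;> simp only [g, Bool.false_eq_true, if_false, if_true] <;> linarith

theorem g_le_one {f : ℝ → ℝ} (hf : f ∈ Dens) (b : Bool) (x : ℝ) : g f b x ≤ 1 := by
  have h := hf.2 x
  cases b <;> simp only [g, Bool.false_eq_true, if_false, if_true] <;> linarith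

/-- the ordered simplex above `a` -/
def T (n : ℕ) (a : ℝ) : Set (Fin n → ℝ) := {y | (∀ i, y i ∈ Ioc a 1) ∧ StrictMono y}

/-- ordered simplex with first coordinate in `A` -/
def S (n : ℕ) (A : Set ℝ) : Set (Fin (n + 1) → ℝ) :=
  {x | x 0 ∈ A ∧ (fun i : Fin n => x i.succ) ∈ T n (x 0)}

theorem measurable_T {n : ℕ} {X : Type*} [MeasurableSpace X] {a : X → ℝ} {y : X → Fin n → ℝ}
    (ha : Measurable a) (hy : ∀ i, Measurable (fun x => y x i)) :
    MeasurableSet {x | y x ∈ T n (a x)} := by
  have h : {x | y x ∈ T n (a x)} = (⋂ i, ({x | a x < y x i} ∩ {x | y x i ≤ 1})) ∩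
      ⋂ i, ⋂ j, ⋂ _ : i < j, {x | y x i < y x j} := by
    ext x
    simp only [T, mem_ofPred_eq, mem_Ioc, mem_inter_iff, mem_iInter, StrictMono]
  rw [h]
  refine MeasurableSet.inter ?_ ?_
  · refine MeasurableSet.iInter (fun i => ?_)
    exact (measurableSet_lt ha (hy i)).inter (measurableSet_le (hy i) measurable_const)
  · refine MeasurableSet.iInter (fun i => MeasurableSet.iInter (fun j =>
      MeasurableSet.iInter (fun _ => ?_)))
    exact measurableSet_lt (hy i) (hy j)

theorem measurable_S {n : ℕ} {A : Set ℝ} (hA : MeasurableSet A) : MeasurableSet (S n A) := by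
  have h : S n A = ((fun x : Fin (n + 1) → ℝ => x 0) ⁻¹' A) ∩
      {x | (fun i : Fin n => x i.succ) ∈ T n (x 0)} := rfl
  rw [h]
  refine MeasurableSet.inter (measurable_pi_apply 0 hA) ?_
  exact measurable_T (measurable_pi_apply 0) (fun i => measurable_pi_apply _)

theorem S_subset {n : ℕ} {A : Set ℝ} (hA : A ⊆ Icc 0 1) : S n A ⊆ Icc 0 1 := by
  intro x hx
  have h0 := hA hx.1
  have hx2 : ∀ i : Fin n, x i.succ ∈ Ioc (x 0) 1 := hx.2.1
  constructor
  · intro i
    refine Fin.cases h0.1 (fun i => ?_) i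
    exact h0.1.trans (hx2 i).1.le
  · intro i
    refine Fin.cases h0.2 (fun i => ?_) i
    exact (hx2 i).2

theorem prod_integrableOn {n : ℕ} {f : ℝ → ℝ} (hf : f ∈ Dens) (v : Fin n → Bool)
    {s : Set (Fin n → ℝ)} (hs : s ⊆ Icc 0 1) :
    IntegrableOn (fun x : Fin n → ℝ => ∏ i, g f (v i) (x i)) s := by
  apply Measure.integrableOn_of_bounded (M := 1)
  · exact ((measure_mono hs).trans_lt isCompact_Icc.measure_lt_top).ne
  · apply Measurable.aestronglyMeasurable
    exact Finset.measurable_prod _ (fun i _ => (g_meas hf (v i)).comp (measurable_pi_apply i))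
  · refine Filter.Eventually.of_forall (fun x => ?_)
    rw [Real.norm_eq_abs, abs_of_nonneg (Finset.prod_nonneg (fun i _ => g_nonneg hf _ _))]
    exact Finset.prod_le_one (fun i _ => g_nonneg hf _ _) (fun i _ => g_le_one hf _ _)

theorem step {n : ℕ} {f : ℝ → ℝ} (hf : f ∈ Dens) (v : Fin (n + 1) → Bool) {A : Set ℝ}
    (hA : MeasurableSet A) (hA1 : A ⊆ Icc 0 1) :
    ∫ x in S n A, ∏ i, g f (v i) (x i) =
      ∫ a in A, g f (v 0) a * ∫ y in T n a, ∏ i, g f (v i.succ) (y i) := by
  classical
  have hTa : ∀ a, MeasurableSet (T n a) := fun a =>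
    measurable_T (X := Fin n → ℝ) (y := fun y => y) measurable_const
      (fun i => measurable_pi_apply i)
  let Φ : (Fin (n + 1) → ℝ) → ℝ := fun x => ∏ i, g f (v i) (x i)
  let h : ℝ × (Fin n → ℝ) → ℝ := fun p =>
    A.indicator (g f (v 0)) p.1 * (T n p.1).indicator (fun y => ∏ i, g f (v i.succ) (y i)) p.2
  have hmp := volume_preserving_piFinSuccAbove (fun _ : Fin (n + 1) => ℝ) 0
  have he : ∀ x : Fin (n + 1) → ℝ,
      h (MeasurableEquiv.piFinSuccAbove (fun _ : Fin (n + 1) => ℝ) 0 x) =
      (S n A).indicator Φ x := by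
    intro x
    have h1 : (MeasurableEquiv.piFinSuccAbove (fun _ : Fin (n + 1) => ℝ) 0 x).1 = x 0 := rfl
    have h2 : (MeasurableEquiv.piFinSuccAbove (fun _ : Fin (n + 1) => ℝ) 0 x).2 =
        fun i : Fin n => x i.succ := rfl
    show A.indicator (g f (v 0)) _ * (T n _).indicator _ _ = _
    rw [h1, h2]
    by_cases hx0 : x 0 ∈ A
    · by_cases hxT : (fun i : Fin n => x i.succ) ∈ T n (x 0)
      · rw [indicator_of_mem hx0, indicator_of_mem hxT,
          indicator_of_mem (show x ∈ S n A from ⟨hx0, hxT⟩)]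
        show _ = ∏ i, g f (v i) (x i)
        rw [Fin.prod_univ_succ]
      · rw [indicator_of_notMem hxT, mul_zero, indicator_of_notMem]
        exact fun hh => hxT hh.2
    · rw [indicator_of_notMem hx0, zero_mul, indicator_of_notMem]
      exact fun hh => hx0 hh.1
  have hint : Integrable ((S n A).indicator Φ) :=
    (integrable_indicator_iff (measurable_S hA)).2 (prod_integrableOn hf v (S_subset hA1))
  have hinth : Integrable h (volume.prod volume) := by
    refine (hmp.integrable_comp_emb (MeasurableEquiv.measurableEmbedding _)).1 ?_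
    refine hint.congr (Filter.Eventually.of_forall (fun x => ?_))
    exact (he x).symm
  calc ∫ x in S n A, ∏ i, g f (v i) (x i) = ∫ x, (S n A).indicator Φ x :=
        (integral_indicator (measurable_S hA)).symm
    _ = ∫ x, h (MeasurableEquiv.piFinSuccAbove (fun _ : Fin (n + 1) => ℝ) 0 x) := by
        simp_rw [he]
    _ = ∫ p, h p ∂(volume.prod volume) := hmp.integral_comp' h
    _ = ∫ a, ∫ y, h (a, y) := integral_prod h hinth
    _ = ∫ a, A.indicator (fun a => g f (v 0) a * ∫ y in T n a, ∏ i, g f (v i.succ) (y i)) a := by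
        refine integral_congr_ae (Filter.Eventually.of_forall (fun a => ?_))
        show ∫ y, A.indicator (g f (v 0)) a *
          (T n a).indicator (fun y => ∏ i, g f (v i.succ) (y i)) y = _
        rw [integral_const_mul, integral_indicator (hTa a)]
        by_cases ha : a ∈ A
        · rw [indicator_of_mem ha, indicator_of_mem ha]
        · rw [indicator_of_notMem ha, indicator_of_notMem ha, zero_mul]
    _ = _ := integral_indicator hA

theorem T_succ {n : ℕ} (a : ℝ) : T (n + 1) a = S n (Ioc a 1) := by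
  ext x
  constructor
  · rintro ⟨h1, h2⟩
    refine ⟨h1 0, fun i => ⟨h2 (Fin.succ_pos i), (h1 _).2⟩, ?_⟩
    exact h2.comp Fin.strictMono_succ
  · rintro ⟨h1, h2, h3⟩
    have h4 : ∀ i : Fin n, x 0 < x i.succ := fun i => (h2 i).1
    refine ⟨?_, ?_⟩
    · intro i
      refine Fin.cases h1 (fun i => ?_) i
      exact ⟨h1.1.trans (h4 i), (h2 i).2⟩
    · intro i j hij
      induction j using Fin.cases with
      | zero => exact absurd hij (Fin.not_lt_zero i)
      | succ j =>
        induction i using Fin.cases with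
        | zero => exact h4 j
        | succ i => exact h3 (Fin.succ_lt_succ_iff.1 hij)

theorem closed_simplex (n : ℕ) : {x : Fin (n + 1) → ℝ | (∀ i, x i ∈ Icc 0 1) ∧ StrictMono x} =
    S n (Icc 0 1) := by
  ext x
  constructor
  · rintro ⟨h1, h2⟩
    refine ⟨h1 0, fun i => ⟨h2 (Fin.succ_pos i), (h1 _).2⟩, ?_⟩
    exact h2.comp Fin.strictMono_succ
  · rintro ⟨h1, h2, h3⟩
    have h4 : ∀ i : Fin n, x 0 < x i.succ := fun i => (h2 i).1
    refine ⟨?_, ?_⟩
    · intro i
      refine Fin.cases h1 (fun i => ?_) i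
      exact ⟨h1.1.trans (h4 i).le, (h2 i).2⟩
    · intro i j hij
      induction j using Fin.cases with
      | zero => exact absurd hij (Fin.not_lt_zero i)
      | succ j =>
        induction i using Fin.cases with
        | zero => exact h4 j
        | succ i => exact h3 (Fin.succ_lt_succ_iff.1 hij)

theorem T_zero (a : ℝ) (F : (Fin 0 → ℝ) → ℝ) : ∫ y in T 0 a, F y = F default := by
  have h : T 0 a = univ := by
    ext y
    simp only [T, mem_ofPred_eq, mem_univ, iff_true]
    exact ⟨fun i => i.elim0, fun i => i.elim0⟩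
  rw [h, Measure.restrict_univ]
  rw [integral_unique]
  have h2 : (volume : Measure (Fin 0 → ℝ)).real univ = 1 := by
    rw [measureReal_def, volume_pi, Measure.pi_univ]
    simp
  rw [h2, one_smul]
  exact congrArg F (Subsingleton.elim _ _)

/-- two letters -/
theorem simplex_two {f : ℝ → ℝ} (hf : f ∈ Dens) (v : Fin 2 → Bool) :
    ∫ x in {x : Fin 2 → ℝ | (∀ i, x i ∈ Icc 0 1) ∧ StrictMono x}, ∏ i, g f (v i) (x i) =
      ∫ a in Icc (0 : ℝ) 1, g f (v 0) a * ∫ b in Ioc a 1, g f (v 1) b := by
  rw [closed_simplex 1, step hf v measurableSet_Icc subset_rfl]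
  refine setIntegral_congr_fun measurableSet_Icc (fun a ha => ?_)
  show g f (v 0) a * _ = g f (v 0) a * _
  congr 1
  rw [T_succ a, step hf (fun i => v i.succ) measurableSet_Ioc (by
    intro x hx; exact ⟨ha.1.trans hx.1.le, hx.2⟩)]
  refine setIntegral_congr_fun measurableSet_Ioc (fun b hb => ?_)
  show g f (v 1) b * _ = g f (v 1) b
  rw [T_zero]
  simp

/-- three letters -/
theorem simplex_three {f : ℝ → ℝ} (hf : f ∈ Dens) (v : Fin 3 → Bool) :
    ∫ x in {x : Fin 3 → ℝ | (∀ i, x i ∈ Icc 0 1) ∧ StrictMono x}, ∏ i, g f (v i) (x i) =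
      ∫ a in Icc (0 : ℝ) 1, g f (v 0) a * ∫ b in Ioc a 1, g f (v 1) b *
        ∫ c in Ioc b 1, g f (v 2) c := by
  rw [closed_simplex 2, step hf v measurableSet_Icc subset_rfl]
  refine setIntegral_congr_fun measurableSet_Icc (fun a ha => ?_)
  show g f (v 0) a * _ = g f (v 0) a * _
  congr 1
  rw [T_succ a, step hf (fun i => v i.succ) measurableSet_Ioc (by
    intro x hx; exact ⟨ha.1.trans hx.1.le, hx.2⟩)]
  refine setIntegral_congr_fun measurableSet_Ioc (fun b hb => ?_)
  show g f (v 1) b * _ = g f (v 1) b * _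
  congr 1
  rw [T_succ b, step hf (fun i : Fin 1 => v i.succ.succ) measurableSet_Ioc (by
    intro x hx; exact ⟨(ha.1.trans hb.1.le).trans hx.1.le, hx.2⟩)]
  refine setIntegral_congr_fun measurableSet_Ioc (fun c hc => ?_)
  show g f (v 2) c * _ = g f (v 2) c
  rw [T_zero]
  simp

end Q117.EK
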